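import Mathlib
import Pool.Agent.H33.HotDefs
import Pool.Agent.H33.Hot1

open Set Real

namespace Pool.Agent.Results.MP_159dfd_an.Q1
open Pool.Agent.H33.Hot

/-- removing the edge `e0` disconnects the graph -/
def IsBridge {nV nE : ℕ} (Γ : MGraph nV nE) (e0 : Fin nE) : Prop :=
  ∃ v w, ¬ Relation.EqvGen (fun a b => ∃ e, e ≠ e0 ∧ Γ.src e = a ∧ Γ.tgt e = b) v w

noncomputable def W : MGraph 8 11 where
  src := ![0, 1, 2, 3, 4, 4, 4, 4, 4, 5, 5]
  tgt := ![1, 2, 3, 0, 0, 1, 2, 3, 5, 6, 7]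
  len := fun e => if e < 8 then π / 2 else 1 / 10
  len_pos := fun _ => by split_ifs <;> positivity

noncomputable def xv (θ : ℝ) : Fin 8 → ℝ := ![cos θ, sin θ, -cos θ, -sin θ, 0, 0, 0, 0]

lemma small {k : ℝ} (hk : 0 < k) (hk1 : k ≤ 1) : 0 < sin (k * (1 / 10)) ∧
    sin (k * (1 / 10)) ≤ 1 / 10 ∧ 99 / 100 ≤ cos (k * (1 / 10)) := by
  refine ⟨sin_pos_of_pos_of_lt_pi (by positivity) (by linarith [pi_gt_three]),
    (sin_le (by positivity)).trans (by linarith), ?_⟩
  have := one_sub_sq_div_two_le_cos (x := k * (1 / 10))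
  nlinarith

lemma eig (θ : ℝ) : IsEigenfun W 0 1 (ps W cos sin (xv θ)) := by
  refine of_VE W cs_one (fun e => ?_) (fun h => ?_) fun v => ?_
  · have := (small one_pos le_rfl).1
    simp only [W]; split_ifs
    · simp
    · simpa using this.ne'
  · have h1 := congrFun h 0
    have h2 := congrFun h 1
    have := sin_sq_add_cos_sq θ
    simp [xv] at h1 h2
    simp [h1, h2] at this
  · fin_cases v <;> simp [Fin.sum_univ_succ, W, xv]

lemma le1 (θ : ℝ) (q : Pt W) : ps W cos sin (xv θ) q ≤ 1 := by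
  have a := sin_sq_add_cos_sq θ
  refine ps_le W _ (fun v => ?_) (fun e => ?_) q
  · fin_cases v <;> simp [xv] <;>
      linarith [cos_le_one θ, sin_le_one θ, neg_one_le_cos θ, neg_one_le_sin θ]
  · fin_cases e <;> simp [xv, W, abs_cos_le_one, abs_sin_le_one]

lemma low {k : ℝ} (hk : 0 < k) (hk1 : k < 1) : k ^ 2 ∉ Spec W 0 := by
  rintro ⟨ψ, h⟩
  obtain ⟨c0, c1, s0⟩ := trig hk hk1
  obtain ⟨t0, t1, t2⟩ := small hk hk1.le
  have s1 := sin_le_one (k * (π / 2))
  have cs := sin_sq_add_cos_sq (k * (1 / 10))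
  obtain ⟨h0, h⟩ := to_VE W (cs_pos hk.ne') (fun e => by
    simp only [W]; split_ifs <;> positivity) h
  set x := fun v => ψ (Sum.inl v)
  have K0 := h 0
  have K1 := h 1
  have K2 := h 2
  have K3 := h 3
  have K4 := h 4
  have K5 := h 5
  have K6 := h 6
  have K7 := h 7
  simp [Fin.sum_univ_succ, W] at K0 K1 K2 K3 K4 K5 K6 K7
  simp only [one_div] at t0 t1 t2 cs
  generalize sin (k * (π / 2)) = s at *
  generalize cos (k * (π / 2)) = c at *
  generalize sin (k * 10⁻¹) = S at *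
  generalize cos (k * 10⁻¹) = C at *
  simp only [hk.ne', t0.ne', or_false] at K6 K7
  field_simp at K0 K1 K2 K3 K4 K5
  simp only [mul_zero, zero_mul, mul_eq_zero, hk.ne', false_or] at K0 K1 K2 K3 K4 K5
  have a : x 2 = x 0 := by apply mul_left_cancel₀ c0.ne'; linarith
  have b : x 3 = x 1 := by apply mul_left_cancel₀ c0.ne'; linarith
  have d : (x 1 - x 0) * (3 * c + 2) = 0 := by rw [a] at K1; rw [b] at K0; linarith
  have d0 : x 1 = x 0 := sub_eq_zero.1 ((mul_eq_zero.1 d).resolve_right (by linarith))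
  have C0 : 0 < C := by linarith
  have e7 : x 7 = x 6 := by apply mul_left_cancel₀ C0.ne'; linarith
  have e5 : x 5 = C * x 6 := by linarith
  have e4 : x 4 = (3 * C ^ 2 - 2) * x 6 := by rw [e7, e5] at K5; linarith
  have e4' : x 4 = (3 * c - 2) * x 0 := by rw [b, d0] at K0; linarith
  have e6 : 4 * (1 - c) * (1 + 3 * c) * x 0 + 3 * C * (S * s) * x 6 = 0 := by
    apply mul_left_cancel₀ t0.ne'
    rw [a, b, d0, e5] at K4
    linear_combination K4 + (4 * c * S) * e4' + (C * s) * e4 + (3 * C * s * x 6) * cs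
  have e8 : x 0 * (4 * (1 - c) * (1 + 3 * c) * (3 * C ^ 2 - 2) + 3 * C * (S * s) * (3 * c - 2))
      = 0 := by
    linear_combination (3 * C ^ 2 - 2) * e6 + 3 * C * (S * s) * (e4 - e4')
  have C1 : C ≤ 1 := by nlinarith
  have D0 : 9 / 10 ≤ 3 * C ^ 2 - 2 := by nlinarith
  have p0 : 0 < C * (S * s) := by positivity
  have p1 : C * (S * s) ≤ 1 / 10 := by
    have : S * s ≤ 1 / 10 := by nlinarith
    nlinarith [mul_pos t0 s0]
  have q0 : 0 < (1 - c) * (1 + 3 * c) := mul_pos (by linarith) (by linarith)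
  have pos : 0 < 4 * (1 - c) * (1 + 3 * c) * (3 * C ^ 2 - 2) + 3 * C * (S * s) * (3 * c - 2) := by
    rcases le_total (3 * c) 2 with h | h
    · have q1 : 1 ≤ (1 - c) * (1 + 3 * c) := by nlinarith
      nlinarith
    · nlinarith
  have z0 : x 0 = 0 := (mul_eq_zero.1 e8).resolve_right pos.ne'
  have z6 : x 6 = 0 := by
    rw [z0] at e6
    have : C * (S * s) * x 6 = 0 := by linarith
    exact (mul_eq_zero.1 this).resolve_left p0.ne'
  apply h0
  funext v
  fin_cases v <;> simp [a, b, d0, e4', e5, e7, z0, z6]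

theorem result : ∃ (nV nE : ℕ) (Γ : MGraph nV nE) (μ : ℝ), Connected Γ ∧ (∃ e, IsBridge Γ e) ∧
    IsLeast {ν ∈ Spec Γ 0 | 0 < ν} μ ∧ (HotSet Γ 0 μ).Infinite := by
  refine ⟨8, 11, W, 1, ⟨by norm_num, ?_⟩, ⟨8, 4, 5, fun h => ?_⟩,
    ⟨⟨⟨_, eig 0⟩, one_pos⟩, ?_⟩, inf_of W _ 0 fun s => ?_⟩
  · let R := fun a b => ∃ e, W.src e = a ∧ W.tgt e = b
    have h5 : Relation.EqvGen R 4 5 := .rel _ _ ⟨8, rfl, rfl⟩
    have : ∀ v, Relation.EqvGen R 4 v := by
      intro v
      fin_cases v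
      · exact .rel _ _ ⟨4, rfl, rfl⟩
      · exact .rel _ _ ⟨5, rfl, rfl⟩
      · exact .rel _ _ ⟨6, rfl, rfl⟩
      · exact .rel _ _ ⟨7, rfl, rfl⟩
      · exact .refl _
      · exact h5
      · exact .trans _ _ _ h5 (.rel _ _ ⟨9, rfl, rfl⟩)
      · exact .trans _ _ _ h5 (.rel _ _ ⟨10, rfl, rfl⟩)
    exact fun v w => .trans _ _ _ (.symm _ _ (this v)) (this w)
  · have : ∀ v w, Relation.EqvGen (fun a b => ∃ e, e ≠ 8 ∧ W.src e = a ∧ W.tgt e = b) v w →
        (v < 5 ↔ w < 5) := by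
      intro v w h
      induction h with
      | rel a b h =>
        obtain ⟨e, he, rfl, rfl⟩ := h
        simp only [W]; revert e; decide
      | refl => rfl
      | symm _ _ _ ih => exact ih.symm
      | trans _ _ _ _ _ h1 h2 => exact h1.trans h2
    exact absurd (this _ _ h) (by decide)
  · rintro ν ⟨hψ, h0⟩
    by_contra hlt
    rw [← sq_sqrt h0.le] at hψ
    exact low (sqrt_pos.2 h0) ((sqrt_lt' one_pos).2 (by simpa using hlt)) hψ
  · exact ⟨_, eig s, Or.inl fun q => (le1 s q).trans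
      (ps_top W _ 0 s (by simp [W]) (by simp [xv, W]) (by simp [xv, W])).ge⟩

end Pool.Agent.Results.MP_159dfd_an.Q1
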